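import Pool.Agent.X220.FP.Cor
import Pool.Agent.X220.FP.Alg

/-!
# Ratios of shifted almost primes with prescribed fractional parts

Let `a_1, …, a_m` be positive integers and `σ = 1` or `σ = -1`. The numbers `p_i = a_i n + σ` satisfy
`(p_i - σ) / (p_j - σ) = a_i / a_j` for all `i, j`. Let `P_1, …, P_s` be real polynomials of degree at most `k ≥ 1` whose
vector of the coefficients of `x ^ k` is of finite type: the distance of `h_1 α_1 + … + h_s α_s` to the nearest integer is at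
least `c₀ / |h| ^ τ` for all nonzero integral vectors `h` (for example `α_1, …, α_s` are algebraic and `1, α_1, …, α_s` are
linearly independent over the rational numbers). We consider `p_1, …, p_m` for the integers `n` of an ARBITRARY short interval
`(M, M + H]` for which all the fractional parts of `P_i(n) - u_i` are less than `ρ_i`, where the `ρ_i` may be as small as
`H ^ (-δ)`.
* If `M + H ≤ H ^ B` and all the `a_i` are at most `H ^ B`, where `B` is arbitrary, the number of the `n` for which all the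
  `p_i` have a bounded number of prime factors, all greater than `H ^ δ`, has the expected order of magnitude.
* The number of the `n` for which all of them are primes is at most of this order.
* The number of the `n` for which they have no prime factor up to `y` is given by an asymptotic formula.

All this is uniform in the polynomials, in `M`, in the boxes, and in `a_1, …, a_m`. The proof combines a sieve which is
uniform in the removed residue classes (in the starting files), Weyl's inequality, and Liouville's inequality for norms.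
-/

set_option autoImplicit false

namespace Pool.Agent.Results.MP_81c801_nt.FractionalParts

open Finset Polynomial

/-- the vector `α` is of finite type, with the constants `c₀` and `τ` -/
def FiniteType {s : ℕ} (c₀ : ℝ) (τ : ℕ) (α : Fin s → ℝ) : Prop :=
  ∀ h : Fin s → ℤ, h ≠ 0 → ∀ a : ℤ, c₀ ≤ (∑ i, |(h i : ℝ)|) ^ τ * |(∑ i, h i * α i) - a|

/-- all the fractional parts of `P_i(n) - u_i` are less than `ρ_i` -/
def InBox {s : ℕ} (P : Fin s → ℝ[X]) (u ρ : Fin s → ℝ) (n : ℕ) : Prop :=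
  ∀ i, Int.fract ((P i).eval (n : ℝ) - u i) < ρ i

/-- `m ≠ 0` has at most `r` prime factors, counted with multiplicity, all of them greater than `x`. -/
def AlmostPrime (r : ℕ) (x : ℝ) (m : ℕ) : Prop :=
  m ≠ 0 ∧ m.primeFactorsList.length ≤ r ∧ ∀ q : ℕ, q.Prime → q ∣ m → x < q

/-- the numbers `p_i = a_i n + σ` -/
def form {m : ℕ} (a : Fin m → ℕ) (σ : ℤ) (n : ℕ) : Fin m → ℤ := fun i => (a i : ℤ) * n + σ

/-- the number of the `n` in `(M, M + H]` with the property `R` for which all the values are almost primes -/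
noncomputable def almost {m : ℕ} (a : Fin m → ℕ) (σ : ℤ) (r : ℕ) (x : ℝ) (M H : ℕ) (R : ℕ → Prop) : ℕ :=
  Set.ncard {n : ℕ | M < n ∧ n ≤ M + H ∧ R n ∧ ∀ i, AlmostPrime r x (form a σ n i).natAbs}

/-- the number of the `n` in `(M, M + H]` with the property `R` for which all the values are primes -/
noncomputable def primes {m : ℕ} (a : Fin m → ℕ) (σ : ℤ) (M H : ℕ) (R : ℕ → Prop) : ℕ :=
  Set.ncard {n : ℕ | M < n ∧ n ≤ M + H ∧ R n ∧ ∀ i, (form a σ n i).natAbs.Prime}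

/-- the number of the `n` in `(M, M + H]` with the property `R` for which the values have no prime factor up to `y` -/
noncomputable def rough {m : ℕ} (a : Fin m → ℕ) (σ : ℤ) (y M H : ℕ) (R : ℕ → Prop) : ℕ :=
  Set.ncard {n : ℕ | M < n ∧ n ≤ M + H ∧ R n ∧ ∀ q : ℕ, q.Prime → q ≤ y → ∀ i, ¬ (q : ℤ) ∣ form a σ n i}

/-- the product over the primes `q ≤ y` of `1 - ν(q) / q`, where `ν(q)` is the number of the residues `n` modulo `q` for
which one of the values is divisible by `q` -/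
noncomputable def V {m : ℕ} (a : Fin m → ℕ) (σ : ℤ) (y : ℕ) : ℝ :=
  ∏ q ∈ (Icc 1 y).filter Nat.Prime, (1 - (Set.ncard {n : ℕ | n < q ∧ ∃ i, (q : ℤ) ∣ form a σ n i} : ℝ) / q)

/-- the bounds for the interval `(M, M + H]` and the property `R`, with the expected number `X` -/
def Bounds {m : ℕ} (a : Fin m → ℕ) (σ : ℤ) (T r : ℕ) (δ c c' C : ℝ) (B M H : ℕ) (R : ℕ → Prop) (X : ℝ) : Prop :=
  (M + H ≤ T ^ B → (∀ i, a i ≤ T ^ B) → c * (X * V a σ T) ≤ almost a σ r ((T : ℝ) ^ δ) M H R ∧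
    c' * X / Real.log T ^ m ≤ almost a σ r ((T : ℝ) ^ δ) M H R) ∧
  (primes a σ M H R : ℝ) ≤ C * (X * V a σ T)

/-- the asymptotic formula for the interval `(M, M + H]` and the property `R`, with the expected number `X` -/
def Rough {m : ℕ} (a : Fin m → ℕ) (σ : ℤ) (η : ℝ) (M H y : ℕ) (R : ℕ → Prop) (X : ℝ) : Prop :=
  |(rough a σ y M H R : ℝ) - X * V a σ y| ≤ η * (X * V a σ y)

/-- the coefficients of the forms -/
def ca {m : ℕ} (a : Fin m → ℕ) : Fin m → ℤ := fun i => (a i : ℤ)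

/-- the constants of the forms -/
def cb (m : ℕ) (σ : ℤ) : Fin m → ℤ := fun _ => σ

lemma form_eq {m : ℕ} (a : Fin m → ℕ) (σ : ℤ) (n : ℕ) (i : Fin m) : ca a i * (n : ℤ) + cb m σ i = form a σ n i := rfl

lemma V_eq {m : ℕ} (a : Fin m → ℕ) (σ : ℤ) (y : ℕ) : Pool.Agent.X55.Fam.VL (ca a) (cb m σ) y = V a σ y := by
  unfold Pool.Agent.X55.Fam.VL V
  simp only [form_eq]

lemma ca_ne {m : ℕ} {a : Fin m → ℕ} (ha : ∀ i, 1 ≤ a i) (i : Fin m) : ca a i ≠ 0 := by
  have := ha i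
  simp only [ca]
  omega

lemma adm {m : ℕ} (a : Fin m → ℕ) {σ : ℤ} (hσ : σ = 1 ∨ σ = -1) (q : ℕ) (hq : q.Prime) :
    ∃ n : ℕ, ∀ i, ¬ (q : ℤ) ∣ ca a i * (n : ℤ) + cb m σ i := by
  refine ⟨0, fun i hi => ?_⟩
  simp only [ca, cb] at hi
  have h1 : (q : ℤ) ∣ σ := by simpa using hi
  have h2 : (q : ℤ) ∣ 1 := by
    rcases hσ with rfl | rfl
    · exact h1
    · exact (dvd_neg.2 h1).trans (by norm_num)
  have h3 := Int.eq_one_of_dvd_one (by positivity) h2
  have := hq.two_le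
  omega

lemma conv {m : ℕ} {a : Fin m → ℕ} {σ : ℤ} (hσ : σ = 1 ∨ σ = -1) {T r : ℕ} {δ c C c1 : ℝ} {B M H : ℕ} {R : ℕ → Prop}
    {X : ℝ} (hT : 3 ≤ T) (hc : 0 < c) (hX : 0 ≤ X) (hlo : c1 / Real.log T ^ m ≤ V a σ T)
    (h : Pool.Agent.X55.Fam.BothL (ca a) (cb m σ) T r δ c C (B + 2) M H R X) :
    Bounds a σ T r δ c (c * c1) C B M H R X := by
  obtain ⟨h1, h2⟩ := h
  unfold Pool.Agent.X55.Fam.LoT at h1
  unfold Pool.Agent.X55.Fam.UpL at h2
  rw [V_eq] at h1 h2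
  simp only [form_eq] at h1 h2
  have hT1 : 1 ≤ T := by omega
  have hTB : 1 ≤ T ^ B := Nat.one_le_pow _ _ hT1
  have hBB : 9 * T ^ B ≤ T ^ (B + 2) := by
    rw [pow_add, mul_comm]
    exact Nat.mul_le_mul_left _ (by nlinarith)
  refine ⟨fun hMH hs0 => ?_, h2⟩
  have k1 := h1 (by omega) (fun i => by
    have e : (ca a i).natAbs = a i := by simp [ca]
    have := hs0 i
    rw [e]
    omega) (fun i => by
    have e : (cb m σ i).natAbs = 1 := by
      rcases hσ with rfl | rfl <;> simp [cb]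
    rw [e]
    omega)
  refine ⟨k1, le_trans ?_ k1⟩
  calc c * c1 * X / Real.log T ^ m = c * (X * (c1 / Real.log T ^ m)) := by ring
    _ ≤ _ := by gcongr

theorem result :
    -- the ratios
    (∀ (m : ℕ) (a : Fin m → ℕ) (σ : ℤ) (n : ℕ), 1 ≤ n → (∀ i, 1 ≤ a i) → ∀ i j,
      (((form a σ n i : ℤ) : ℚ) - σ) / (((form a σ n j : ℤ) : ℚ) - σ) = (a i : ℚ) / a j) ∧
    (∀ (s k τ m : ℕ) (c₀ : ℝ), 1 ≤ k → 0 < c₀ → 1 ≤ m →
    (∀ B : ℕ, ∃ (r : ℕ) (δ c c' C : ℝ) (H₀ : ℕ), 0 < δ ∧ 0 < c ∧ 0 < c' ∧ 0 < C ∧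
      ∀ H : ℕ, H₀ ≤ H → ∀ P : Fin s → ℝ[X], (∀ i, (P i).natDegree ≤ k) → FiniteType c₀ τ (fun i => (P i).coeff k) →
      ∀ u ρ : Fin s → ℝ, (∀ i, (H : ℝ) ^ (-δ) ≤ ρ i ∧ ρ i ≤ 1) →
      ∀ (a : Fin m → ℕ) (σ : ℤ), (∀ i, 1 ≤ a i) → σ = 1 ∨ σ = -1 → ∀ M : ℕ,
      Bounds a σ H r δ c c' C B M H (InBox P u ρ) (H * ∏ i, ρ i)) ∧
    (∀ η : ℝ, 0 < η → ∃ (δ : ℝ) (H₀ : ℕ), 0 < δ ∧
      ∀ H : ℕ, H₀ ≤ H → ∀ P : Fin s → ℝ[X], (∀ i, (P i).natDegree ≤ k) → FiniteType c₀ τ (fun i => (P i).coeff k) →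
      ∀ u ρ : Fin s → ℝ, (∀ i, (H : ℝ) ^ (-δ) ≤ ρ i ∧ ρ i ≤ 1) →
      ∀ (a : Fin m → ℕ) (σ : ℤ), (∀ i, 1 ≤ a i) → σ = 1 ∨ σ = -1 → ∀ M : ℕ,
      ∀ y : ℕ, 3 ≤ y → (y : ℝ) ≤ (H : ℝ) ^ δ → Rough a σ η M H y (InBox P u ρ) (H * ∏ i, ρ i))) ∧
    -- algebraic numbers
    (∀ (s : ℕ) (α : Fin s → ℝ), (∀ i, IsAlgebraic ℚ (α i)) →
      (∀ (h : Fin s → ℤ) (a : ℤ), ∑ i, (h i : ℝ) * α i = a → h = 0) →
      ∃ (c₀ : ℝ) (τ : ℕ), 0 < c₀ ∧ FiniteType c₀ τ α) := by
  classical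
  refine ⟨fun m a σ n hn ha i j => ?_, fun s k τ m c₀ hk hc₀ hm => ⟨?_, ?_⟩,
    fun s α hα hind => Pool.Agent.X220.FP.liouville_vec s α hα hind⟩
  · have hnQ : (n : ℚ) ≠ 0 := by
      have : n ≠ 0 := by omega
      exact_mod_cast this
    have haj : (a j : ℚ) ≠ 0 := by
      have : a j ≠ 0 := by have := ha j; omega
      exact_mod_cast this
    simp only [form]
    push_cast
    rw [add_sub_cancel_right, add_sub_cancel_right]
    field_simp
  · intro B
    obtain ⟨r, δ, c, C, H₀, hδ, hc, hC, h⟩ := Pool.Agent.X220.FP.fp_lin s k τ hk c₀ hc₀ m hm (B + 2)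
    obtain ⟨c1, hc1, hlo⟩ := Pool.Agent.X55.Fam.VQ_low m hm
    refine ⟨r, δ, c, c * c1, C, max H₀ 3, hδ, hc, by positivity, hC, ?_⟩
    intro H hH P hP hFT u ρ hρ a σ ha hσ M
    have h3 : 3 ≤ H := (le_max_right _ _).trans hH
    have hX : 0 ≤ (H : ℝ) * ∏ i, ρ i := mul_nonneg (Nat.cast_nonneg _)
      (prod_nonneg fun i _ => le_trans (by positivity) (hρ i).1)
    have had := adm a hσ
    exact conv hσ h3 hc hX (by
      rw [← V_eq, Pool.Agent.X55.Fam.VL_eq]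
      exact hlo _ (Pool.Agent.X55.Fam.adm_lin (ca a) (cb m σ) had) H h3)
      (h H ((le_max_left _ _).trans hH) (ca a) (cb m σ) (ca_ne ha) had P hP hFT u ρ hρ M)
  · intro η hη
    obtain ⟨δ, H₀, hδ, h⟩ := Pool.Agent.X220.FP.fp_linA s k τ hk c₀ hc₀ m hm η hη
    refine ⟨δ, H₀, hδ, ?_⟩
    intro H hH P hP hFT u ρ hρ a σ ha hσ M y hy hyH
    have key := h H hH (ca a) (cb m σ) (adm a hσ) P hP hFT u ρ hρ M y hy hyH
    unfold Pool.Agent.X55.Fam.AsL at key
    rw [V_eq] at key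
    simp only [form_eq] at key
    exact key

end Pool.Agent.Results.MP_81c801_nt.FractionalParts
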